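import Pool.Agent.Helper9.UP.StN

set_option autoImplicit false

/-! Project UP (MP_d466de_nt), module RO: number of roots modulo p. -/

namespace Pool.Agent.Helper15.UP

open Pool.Agent.Helper9.UP Polynomial

theorem hRO : StRO := by
  intro Λ f hf p hp
  classical
  have hprim : f.IsPrimitive := hf.irr.isPrimitive (by have := hf.deg; omega)
  have : Fact p.Prime := ⟨hp⟩
  set g : (ZMod p)[X] := f.map (Int.castRingHom (ZMod p)) with hg
  have hg0 : g ≠ 0 := by
    intro h0
    have h1 : C (p : ℤ) ∣ f := by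
      rw [Polynomial.C_dvd_iff_dvd_coeff]
      intro i
      have h2 : g.coeff i = 0 := by rw [h0, coeff_zero]
      rw [hg, coeff_map] at h2
      exact (ZMod.intCast_zmod_eq_zero_iff_dvd (f.coeff i) p).1 h2
    have h3 := hprim _ h1
    rw [Int.isUnit_iff_natAbs_eq, Int.natAbs_natCast] at h3
    exact hp.one_lt.ne' h3
  unfold rho
  have hmap : ∀ r ∈ (Finset.range p).filter (fun r : ℕ => (p : ℤ) ∣ f.eval (r : ℤ)),
      ((r : ℕ) : ZMod p) ∈ g.roots.toFinset := by
    intro r hr
    obtain ⟨-, h2⟩ := Finset.mem_filter.1 hr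
    rw [Multiset.mem_toFinset, mem_roots hg0, IsRoot.def, hg, eval_map]
    have h3 : ((f.eval (r : ℤ) : ℤ) : ZMod p) = 0 :=
      (ZMod.intCast_zmod_eq_zero_iff_dvd _ p).2 h2
    have h4 := Polynomial.hom_eval₂ f (RingHom.id ℤ) (Int.castRingHom (ZMod p)) (r : ℤ)
    rw [RingHom.comp_id] at h4
    have h5 : eval₂ (RingHom.id ℤ) (r : ℤ) f = f.eval (r : ℤ) := rfl
    rw [h5] at h4
    have h6 : (Int.castRingHom (ZMod p)) (r : ℤ) = ((r : ℕ) : ZMod p) := by simp
    rw [h6] at h4
    rw [← h4]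
    exact h3
  have hinj : Set.InjOn (fun r : ℕ => (r : ZMod p))
      ((Finset.range p).filter (fun r : ℕ => (p : ℤ) ∣ f.eval (r : ℤ)) : Finset ℕ) := by
    intro a ha b hb hab
    have ha' : a < p := Finset.mem_range.1 (Finset.mem_filter.1 ha).1
    have hb' : b < p := Finset.mem_range.1 (Finset.mem_filter.1 hb).1
    have h1 := (ZMod.natCast_eq_natCast_iff' a b p).1 hab
    rwa [Nat.mod_eq_of_lt ha', Nat.mod_eq_of_lt hb'] at h1
  calc ((Finset.range p).filter (fun r : ℕ => (p : ℤ) ∣ f.eval (r : ℤ))).card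
      ≤ g.roots.toFinset.card := Finset.card_le_card_of_injOn _ hmap hinj
    _ ≤ Multiset.card g.roots := Multiset.toFinset_card_le _
    _ ≤ g.natDegree := card_roots' g
    _ ≤ f.natDegree := natDegree_map_le

end Pool.Agent.Helper15.UP
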